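import Mathlib

universe u

namespace Pool.Agent.Work.MP_eb7862_gt

open Topology Set

theorem exists_linear_embedding {X Y : Type u} [TopologicalSpace X] [TopologicalSpace Y]
    (q : Y → X) (hq : Continuous q) (hs : Function.Surjective q) :
    ∃ T : continuousSubmodule X ℝ ℝ →ₗ[ℝ] continuousSubmodule Y ℝ ℝ,
      IsEmbedding T ∧ ∀ f y, (T f).1 y = f.1 (q y) := by
  let T : continuousSubmodule X ℝ ℝ →ₗ[ℝ] continuousSubmodule Y ℝ ℝ :=
    { toFun := fun f => ⟨fun y => f.1 (q y), Continuous.comp f.2 hq⟩
      map_add' := fun _ _ => rfl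
      map_smul' := fun _ _ => rfl }
  refine ⟨T, ?_, fun _ _ => rfl⟩
  have hc : Continuous T := by
    refine continuous_induced_rng.2 (continuous_pi fun y => ?_)
    exact (continuous_apply (q y)).comp continuous_subtype_val
  let s : X → Y := Function.surjInv hs
  have hg : Continuous (fun g : continuousSubmodule Y ℝ ℝ => fun x => g.1 (s x)) :=
    continuous_pi fun x => (continuous_apply (s x)).comp continuous_subtype_val
  refine IsEmbedding.of_comp hc hg ?_
  have : (fun g : continuousSubmodule Y ℝ ℝ => fun x => g.1 (s x)) ∘ T = Subtype.val := by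
    funext f x
    show f.1 (q (s x)) = f.1 x
    rw [Function.surjInv_eq hs]
  rw [this]
  exact IsEmbedding.subtypeVal

end Pool.Agent.Work.MP_eb7862_gt
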