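import Mathlib

universe u

namespace Pool.Agent.Work.MP_eb7862_gt

/-- `PF F`: for every point `a` there is a point-finite family of clopen subsets of `F`
whose union is `F ∖ {a}`. -/
def PF (F : Type u) [TopologicalSpace F] : Prop :=
  ∀ a : F, ∃ 𝒟 : Set (Set F), (∀ D ∈ 𝒟, IsClopen D) ∧ ⋃₀ 𝒟 = {a}ᶜ ∧
    ∀ b : F, {D ∈ 𝒟 | b ∈ D}.Finite

end Pool.Agent.Work.MP_eb7862_gt
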