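import Pool.Agent.Work.MP_eb7862_gt.PFSteps

/-!
Examples of PF spaces (sanity checks for the definition).
-/

universe u

namespace Pool.Agent.Work.MP_eb7862_gt

open Topology Set

/-- the one-point compactification of any discrete space is PF -/
theorem pf_onePoint_discrete (κ : Type u) [TopologicalSpace κ] [DiscreteTopology κ] :
    PF (OnePoint κ) := by
  have hcl : ∀ k : κ, IsClopen ({(k : OnePoint κ)} : Set (OnePoint κ)) := fun k =>
    ⟨isClosed_singleton, by
      rw [← image_singleton]; exact OnePoint.isOpen_image_coe.2 (isOpen_discrete _)⟩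
  intro a
  induction a using OnePoint.rec with
  | infty =>
    refine ⟨range fun k : κ => {(k : OnePoint κ)}, ?_, ?_, ?_⟩
    · rintro _ ⟨k, rfl⟩; exact hcl k
    · rw [OnePoint.compl_infty]
      ext b
      simp [eq_comm]
    · intro b
      refine Subsingleton.finite ?_
      rintro _ ⟨⟨k, rfl⟩, h⟩ _ ⟨⟨k', rfl⟩, h'⟩
      rw [mem_singleton_iff] at h h'
      simp only [← h, ← h']
  | coe k =>
    refine ⟨{{(k : OnePoint κ)}ᶜ}, ?_, by simp, fun b => ?_⟩
    · rintro _ rfl; exact (hcl k).compl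
    · exact (finite_singleton _).subset fun D hD => hD.1

/-- a compact family of finite sets (strong Eberlein compactum) is PF -/
theorem pf_finite_sets {Γ : Type u} (K : Set (Γ → Bool))
    (hK : ∀ x ∈ K, {γ | x γ = true}.Finite) : PF K := by
  intro a
  refine ⟨range fun γ : Γ => {x : K | x.1 γ ≠ a.1 γ}, ?_, ?_, ?_⟩
  · rintro _ ⟨γ, rfl⟩
    exact (isClopen_discrete {b : Bool | b ≠ a.1 γ}).preimage
      ((continuous_apply γ).comp continuous_subtype_val)
  · ext x
    simp only [mem_sUnion, mem_range, mem_compl_iff, mem_singleton_iff]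
    constructor
    · rintro ⟨_, ⟨γ, rfl⟩, h⟩ rfl
      exact h rfl
    · intro h
      by_contra h'
      refine h (Subtype.ext (funext fun γ => ?_))
      by_contra h''
      exact h' ⟨_, ⟨γ, rfl⟩, h''⟩
  · intro b
    refine (((hK a.1 a.2).union (hK b.1 b.2)).image
      fun γ : Γ => {x : K | x.1 γ ≠ a.1 γ}).subset ?_
    rintro _ ⟨⟨γ, rfl⟩, h⟩
    refine ⟨γ, ?_, rfl⟩
    simp only [mem_ofPred_eq, mem_union] at h ⊢
    cases h1 : a.1 γ <;> cases h2 : b.1 γ <;> simp_all

/-- a zero-dimensional first countable compactum is PF -/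
theorem pf_firstCountable (F : Type u) [TopologicalSpace F] [CompactSpace F] [T2Space F]
    [TotallyDisconnectedSpace F] [FirstCountableTopology F] : PF F := by
  intro a
  obtain ⟨V, hV⟩ := (𝓝 a).exists_antitone_basis
  have h1 : ∀ n, ∃ U : Set F, IsClopen U ∧ a ∈ U ∧ U ⊆ V n := fun n => by
    obtain ⟨U, hU, hUV⟩ := (nhds_basis_clopen a).mem_iff.1 (hV.mem n)
    exact ⟨U, hU.2, hU.1, hUV⟩
  choose U hU haU hUV using h1
  refine ⟨range fun n => (⋂ m ∈ Finset.range n, U m) \ U n, ?_, ?_, ?_⟩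
  · rintro _ ⟨n, rfl⟩
    exact (isClopen_biInter_finset fun m _ => hU m).diff (hU n)
  · ext x
    simp only [mem_sUnion, mem_range, mem_compl_iff, mem_singleton_iff]
    constructor
    · rintro ⟨_, ⟨n, rfl⟩, h⟩ rfl
      exact h.2 (haU n)
    · intro h
      have : ∃ n, x ∉ U n := by
        obtain ⟨n, -, hn⟩ := hV.toHasBasis.mem_iff.1
          (isOpen_compl_singleton.mem_nhds (Ne.symm h : a ∈ ({x}ᶜ : Set F)))
        exact ⟨n, fun hx => hn (hUV n hx) rfl⟩
      classical
      refine ⟨_, ⟨Nat.find this, rfl⟩, ?_, Nat.find_spec this⟩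
      simp only [mem_iInter, Finset.mem_range]
      intro m hm
      exact not_not.1 (Nat.find_min this hm)
  · intro b
    refine Subsingleton.finite ?_
    rintro _ ⟨⟨n, rfl⟩, h⟩ _ ⟨⟨n', rfl⟩, h'⟩
    simp only [mem_sdiff, mem_iInter, Finset.mem_range] at h h'
    rcases lt_trichotomy n n' with hl | rfl | hl
    · exact (h.2 (h'.1 n hl)).elim
    · rfl
    · exact (h'.2 (h.1 n' hl)).elim

end Pool.Agent.Work.MP_eb7862_gt
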