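import Mathlib

/-!
Abstract machine: a class of steps with pinning gives universal gadgets.
-/

universe u

namespace Pool.Agent.Work.MP_eb7862_gt

open Topology Set

/-- A class of steps `S ⊆ P × F`, stable under pullback, in which every point can be pinned. -/
structure StepClass (F : Type u) [TopologicalSpace F] where
  St : ∀ (P : Type u) [TopologicalSpace P], Set (P × F) → Prop
  closed : ∀ {P : Type u} [TopologicalSpace P] {S : Set (P × F)}, St P S → IsClosed S
  total : ∀ {P : Type u} [TopologicalSpace P] {S : Set (P × F)}, St P S → ∀ p, ∃ a, (p, a) ∈ S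
  pull : ∀ {P P' : Type u} [TopologicalSpace P] [TopologicalSpace P'] {S : Set (P × F)}
    (f : P' → P), Continuous f → St P S → St P' {q | (f q.1, q.2) ∈ S}
  c0 : F
  const : ∀ (P : Type u) [TopologicalSpace P], St P {q | q.2 = c0}
  Bits : Set F
  free : ∀ (P : Type u) [TopologicalSpace P], St P {q | q.2 ∈ Bits}
  U : Type u
  u0 : U
  ru : U → U → Prop
  wf : WellFounded ru
  pin : ∀ {P : Type u} [TopologicalSpace P] {S : Set (P × F)}, St P S →
    ∀ (p1 : P) (a1 : F), (p1, a1) ∈ S → ∀ j : U → F, (∀ v, j v ∈ Bits) →
    ∃ (S' : Set ((P × (U → F)) × F)) (R : U → Set (((P × F) × (U → F)) × F)),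
      St _ S' ∧ (∀ v, St _ (R v)) ∧ (∀ a, ((p1, j), a) ∈ S' → a = a1) ∧
      (∀ p e a, ((p, e), a) ∈ S' → (p, a) ∈ S) ∧
      (∀ v q e e' c, (∀ v', ru v' v → e v' = e' v') → ((q, e), c) ∈ R v → ((q, e'), c) ∈ R v) ∧
      (∀ p a e, (p, a) ∈ S →
        ((((p, e), a) ∈ S' ∧ ∀ v, e v ∈ Bits) ↔ ∀ v, (((p, a), e), e v) ∈ R v))

variable {F : Type u} [TopologicalSpace F] (C : StepClass F)

/-- `π : W → K` is presented by a well-founded system of steps indexed by `I`. -/
def IsGood (I : Type u) {W K : Type u} [TopologicalSpace W] [TopologicalSpace K]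
    (π : W → K) : Prop :=
  Continuous π ∧
  ∃ (r : I → I → Prop) (S : I → Set ((K × (I → F)) × F)) (x : W → I → F),
    WellFounded r ∧ (∀ i, C.St _ (S i)) ∧
    (∀ i k y y' a, (∀ i', r i' i → y i' = y' i') → ((k, y), a) ∈ S i → ((k, y'), a) ∈ S i) ∧
    Continuous x ∧ (∀ w w', π w = π w' → x w = x w' → w = w') ∧
    ∀ k y, (∀ i, ((k, y), y i) ∈ S i) ↔ ∃ w, π w = k ∧ x w = y

open Classical in
/-- replace the coordinates that are not predecessors of `i` by a constant -/
noncomputable def mask {I : Type u} (r : I → I → Prop) (c : F) (i : I) (y : I → F) : I → F :=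
  fun i' => if r i' i then y i' else c

omit [TopologicalSpace F] in
theorem mask_of_rel {I : Type u} {r : I → I → Prop} {c : F} {i i' : I} (y : I → F)
    (h : r i' i) : mask r c i y i' = y i' := by
  simp [mask, h]

omit [TopologicalSpace F] in
theorem mask_congr {I : Type u} {r : I → I → Prop} {c : F} {i : I} {y y' : I → F}
    (h : ∀ i', r i' i → y i' = y' i') : mask r c i y = mask r c i y' := by
  funext i'
  by_cases hr : r i' i
  · simp [mask, hr, h i' hr]
  · simp [mask, hr]

theorem continuous_mask {I : Type u} (r : I → I → Prop) (c : F) (i : I) :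
    Continuous (mask r c i : (I → F) → I → F) := by
  refine continuous_pi fun i' => ?_
  by_cases hr : r i' i
  · simp only [mask, hr, if_true]; exact continuous_apply i'
  · simp only [mask, hr, if_false]; exact continuous_const

theorem IsGood.surjective {I W K : Type u} [TopologicalSpace W] [TopologicalSpace K]
    {π : W → K} (h : IsGood C I π) : Function.Surjective π := by
  classical
  obtain ⟨-, r, S, x, hr, hS, hdep, -, -, hsol⟩ := h
  intro k
  let y : I → F := hr.fix fun i rec =>
    (C.total (hS i) (k, fun i' => if h : r i' i then rec i' h else C.c0)).choose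
  have hy : ∀ i, ((k, y), y i) ∈ S i := by
    intro i
    have e : y i = (C.total (hS i) (k, fun i' => if _ : r i' i then y i' else C.c0)).choose :=
      hr.fix_eq _ i
    have := (C.total (hS i) (k, fun i' => if _ : r i' i then y i' else C.c0)).choose_spec
    rw [← e] at this
    exact hdep i k _ _ _ (fun i' h => by simp [h]) this
  obtain ⟨w, hw, -⟩ := (hsol k y).1 hy
  exact ⟨w, hw⟩

/-- index type of the universal gadget -/
inductive Lam (K I : Type u) [TopologicalSpace K] : Type u
  | bit : I → C.U → Lam K I
  | node : I → (I → Lam K I) →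
      {S : Set (((K × (I → F)) × (C.U → F)) × F) // C.St _ S} → Lam K I

variable {C}
variable {K I : Type u} [TopologicalSpace K]

/-- the tag of an index -/
def Lam.tag : Lam C K I → I
  | .bit i _ => i
  | .node i _ _ => i

/-- dependence relation between indices -/
def Lam.rel (a : Lam C K I) : Lam C K I → Prop
  | .bit i v => ∃ v', C.ru v' v ∧ a = .bit i v'
  | .node i args _ => (∃ i', a = args i') ∨ ∃ v, a = .bit i v

theorem Lam.acc_bit (i : I) (v : C.U) : Acc Lam.rel (Lam.bit i v : Lam C K I) := by
  induction v using C.wf.induction with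
  | _ v ih =>
    refine Acc.intro _ fun a ha => ?_
    obtain ⟨v', hv, rfl⟩ := ha
    exact ih v' hv

theorem Lam.wf : WellFounded (Lam.rel : Lam C K I → Lam C K I → Prop) := by
  refine ⟨fun l => ?_⟩
  induction l with
  | bit i v => exact Lam.acc_bit i v
  | node i args S ih =>
    refine Acc.intro _ fun a ha => ?_
    rcases ha with ⟨i', rfl⟩ | ⟨v, rfl⟩
    · exact ih i'
    · exact Lam.acc_bit i v

/-- the constraint at an index -/
def Lam.T : Lam C K I → Set ((K × (Lam C K I → F)) × F)
  | .bit _ _ => {q | q.2 ∈ C.Bits}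
  | .node i args S =>
      {q | (((q.1.1, fun i' => q.1.2 (args i')), fun v => q.1.2 (.bit i v)), q.2) ∈ S.1}

theorem Lam.st_T (l : Lam C K I) : C.St _ l.T := by
  cases l with
  | bit i v => exact C.free _
  | node i args S =>
    exact C.pull (fun p : K × (Lam C K I → F) =>
      ((p.1, fun i' => p.2 (args i')), fun v => p.2 (.bit i v))) (by fun_prop) S.2

theorem Lam.T_dep (l : Lam C K I) (k : K) (y y' : Lam C K I → F) (a : F)
    (h : ∀ l', Lam.rel l' l → y l' = y' l') (hm : ((k, y), a) ∈ l.T) : ((k, y'), a) ∈ l.T := by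
  cases l with
  | bit i v => exact hm
  | node i args S =>
    have h1 : (fun i' => y (args i')) = fun i' => y' (args i') :=
      funext fun i' => h _ (Or.inl ⟨i', rfl⟩)
    have h2 : (fun v => y (.bit i v)) = fun v => y' (.bit i v) :=
      funext fun v => h _ (Or.inr ⟨v, rfl⟩)
    simp only [Lam.T, mem_ofPred_eq] at hm ⊢
    rw [← h1, ← h2]; exact hm

variable (C K I)

/-- the universal gadget over `K` for good maps with index type `I` -/
def Gad : Type u := {g : K × (Lam C K I → F) // ∀ l : Lam C K I, (g, g.2 l) ∈ l.T}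

instance : TopologicalSpace (Gad C K I) :=
  inferInstanceAs (TopologicalSpace
    {g : K × (Lam C K I → F) // ∀ l : Lam C K I, (g, g.2 l) ∈ l.T})

instance [T2Space K] [T2Space F] : T2Space (Gad C K I) :=
  inferInstanceAs (T2Space {g : K × (Lam C K I → F) // ∀ l : Lam C K I, (g, g.2 l) ∈ l.T})

instance [CompactSpace K] [CompactSpace F] : CompactSpace (Gad C K I) := by
  have : IsClosed {g : K × (Lam C K I → F) | ∀ l : Lam C K I, (g, g.2 l) ∈ l.T} := by
    simp only [ofPred_forall]
    exact isClosed_iInter fun l => (C.closed l.st_T).preimage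
      (f := fun g : K × (Lam C K I → F) => (g, g.2 l)) (by fun_prop)
  exact isCompact_iff_compactSpace.1 this.isCompact

/-- the projection of the gadget to the base -/
def Gad.pr (g : Gad C K I) : K := g.1.1

theorem Gad.continuous_val : Continuous (fun g : Gad C K I => g.1) := continuous_subtype_val

theorem Gad.continuous_pr : Continuous (Gad.pr C K I) :=
  continuous_fst.comp (Gad.continuous_val C K I)

theorem Gad.good_pr : IsGood C (Lam C K I) (Gad.pr C K I) := by
  refine ⟨Gad.continuous_pr C K I, Lam.rel, Lam.T, fun g => g.1.2, Lam.wf, Lam.st_T,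
    Lam.T_dep, continuous_snd.comp (Gad.continuous_val C K I), ?_, ?_⟩
  · intro w w' h1 h2
    exact Subtype.ext (Prod.ext h1 h2)
  · intro k y
    constructor
    · intro h
      exact ⟨⟨(k, y), h⟩, rfl, rfl⟩
    · rintro ⟨w, rfl, rfl⟩
      exact w.2

variable {C K I}

theorem Gad.universal {W : Type u} [TopologicalSpace W] [CompactSpace W] [T2Space K] [T2Space F]
    {π : W → K} (hπ : IsGood C I π) (w0 : W) (g0 : Gad C K I) (h0 : π w0 = Gad.pr C K I g0) :
    ∃ ρ : Gad C K I → W, IsGood C (Lam C K I) ρ ∧ (∀ g, π (ρ g) = Gad.pr C K I g) ∧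
      ρ g0 = w0 := by
  classical
  obtain ⟨hπc, r, S, x, hr, hS, hdep, hx, hinj, hsol⟩ := hπ
  have hW : ∀ w i, ((π w, x w), x w i) ∈ S i := fun w => (hsol _ _).2 ⟨w, rfl, rfl⟩
  have hWm : ∀ w i, ((π w, mask r C.c0 i (x w)), x w i) ∈ S i := fun w i =>
    hdep i _ _ _ _ (fun i' h => (mask_of_rel _ h).symm) (hW w i)
  have hbit : ∀ (g : Gad C K I) i v, g.1.2 (.bit i v) ∈ C.Bits := fun g i v => g.2 (.bit i v)
  choose S' R hS' hR hpin hsub hRdep hiff using fun i =>
    C.pin (hS i) _ _ (hWm w0 i) (fun v => g0.1.2 (.bit i v)) (hbit g0 i)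
  let S'' : I → {S : Set (((K × (I → F)) × (C.U → F)) × F) // C.St _ S} := fun i =>
    ⟨_, C.pull (fun p : (K × (I → F)) × (C.U → F) => ((p.1.1, mask r C.c0 i p.1.2), p.2))
      (by have := continuous_mask r C.c0 i; fun_prop) (hS' i)⟩
  let L : I → Lam C K I := hr.fix fun i rec =>
    .node i (fun i' => if h : r i' i then rec i' h else .bit i C.u0) (S'' i)
  have hL : ∀ i, L i = .node i (fun i' => if _ : r i' i then L i' else .bit i C.u0) (S'' i) :=
    fun i => hr.fix_eq _ i
  have htag : ∀ i, (L i).tag = i := fun i => by rw [hL]; rfl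
  have hLT : ∀ i k (y : Lam C K I → F) a, ((k, y), a) ∈ (L i).T ↔
      (((k, mask r C.c0 i (fun i' => y (L i'))), fun v => y (.bit i v)), a) ∈ S' i := by
    intro i k y a
    rw [hL i]
    have : mask r C.c0 i (fun i' => y (if _ : r i' i then L i' else .bit i C.u0)) =
        mask r C.c0 i (fun i' => y (L i')) := mask_congr fun i' h => by simp [h]
    simp only [Lam.T, S'', mem_ofPred_eq]
    rw [this]
  have hex : ∀ g : Gad C K I, ∃ w, π w = g.1.1 ∧ x w = fun i => g.1.2 (L i) := by
    intro g
    refine (hsol _ _).1 fun i => ?_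
    have h1 := hsub i _ _ _ ((hLT i g.1.1 g.1.2 _).1 (g.2 (L i)))
    exact hdep i _ (mask r C.c0 i fun i' => g.1.2 (L i')) _ _
      (fun i' h => mask_of_rel (fun i' => g.1.2 (L i')) h) h1
  choose ρ hρ1 hρ2 using hex
  have hρc : Continuous ρ := by
    have hc : Continuous (fun w => (π w, x w)) := hπc.prodMk hx
    have hi : Function.Injective (fun w => (π w, x w)) := fun w w' h =>
      hinj w w' (congrArg Prod.fst h) (congrArg Prod.snd h)
    have hemb := hc.isClosedEmbedding hi
    rw [hemb.isInducing.continuous_iff]
    have : (fun w => (π w, x w)) ∘ ρ = fun g : Gad C K I => (g.1.1, fun i => g.1.2 (L i)) := by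
      funext g
      simp [hρ1, hρ2]
    rw [this]
    have := Gad.continuous_val C K I
    fun_prop
  have hnb : ∀ i v, L (Lam.bit i v : Lam C K I).tag ≠ .bit i v := by
    intro i v h
    rw [hL] at h
    cases h
  let mg : W → (Lam C K I → F) → Lam C K I → F := fun w y l =>
    if L l.tag = l then x w l.tag else y l
  have hmgc : Continuous (fun p : W × (Lam C K I → F) => mg p.1 p.2) := by
    refine continuous_pi fun l => ?_
    by_cases h : L l.tag = l
    · simp only [mg, h, if_true]; fun_prop
    · simp only [mg, h, if_false]; fun_prop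
  have hmgL : ∀ w y i, mg w y (L i) = x w i := by
    intro w y i
    simp [mg, htag]
  have hmgb : ∀ w y i v, mg w y (.bit i v) = y (.bit i v) := by
    intro w y i v
    simp [mg, hnb]
  let x' : Gad C K I → Lam C K I → F := fun g l => if L l.tag = l then C.c0 else g.1.2 l
  have hmgx : ∀ g, mg (ρ g) (x' g) = g.1.2 := by
    intro g
    funext l
    by_cases h : L l.tag = l
    · simp only [mg, h, if_true, hρ2]
    · simp only [mg, x', h, if_false]
  let T0 : Lam C K I → Set ((W × (Lam C K I → F)) × F) := fun l =>
    match l with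
    | .bit i v => {q | ((((π q.1.1, mask r C.c0 i (x q.1.1)), x q.1.1 i),
        fun v' => q.1.2 (.bit i v')), q.2) ∈ R i v}
    | .node i args S => {q | ((π q.1.1, mg q.1.1 q.1.2), q.2) ∈ (Lam.node i args S).T}
  let T' : Lam C K I → Set ((W × (Lam C K I → F)) × F) := fun l =>
    if L l.tag = l then {q | q.2 = C.c0} else T0 l
  refine ⟨ρ, ⟨hρc, Lam.rel, T', x', Lam.wf, ?_, ?_, ?_, ?_, ?_⟩, hρ1, ?_⟩
  · intro l
    by_cases h : L l.tag = l
    · simp only [T', h, if_true]; exact C.const _
    · simp only [T', h, if_false]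
      cases l with
      | bit i v =>
        exact C.pull (fun p : W × (Lam C K I → F) =>
          (((π p.1, mask r C.c0 i (x p.1)), x p.1 i), fun v' => p.2 (.bit i v')))
          (by have := continuous_mask r C.c0 i; fun_prop) (hR i v)
      | node i args S =>
        exact C.pull (fun p : W × (Lam C K I → F) => (π p.1, mg p.1 p.2))
          ((hπc.comp continuous_fst).prodMk hmgc) (Lam.st_T _)
  · intro l w y y' a h hm
    by_cases hl : L l.tag = l
    · simp only [T', hl, if_true] at hm ⊢; exact hm
    · simp only [T', hl, if_false] at hm ⊢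
      cases l with
      | bit i v =>
        exact hRdep i v _ _ _ _ (fun v' hv => h _ ⟨v', hv, rfl⟩) hm
      | node i args S =>
        refine Lam.T_dep (.node i args S) (π w) (mg w y) (mg w y') a (fun l' hl' => ?_) hm
        simp only [mg, h l' hl']
  · refine continuous_pi fun l => ?_
    by_cases h : L l.tag = l
    · simp only [x', h, if_true]; exact continuous_const
    · simp only [x', h, if_false]
      have := Gad.continuous_val C K I
      fun_prop
  · intro g g' h1 h2
    refine Subtype.ext (Prod.ext ?_ ?_)
    · rw [← hρ1, ← hρ1, h1]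
    · rw [← hmgx, ← hmgx, h1, h2]
  · intro w y
    constructor
    · intro h
      have hb : ∀ i, (((π w, mask r C.c0 i (x w)), fun v => y (.bit i v)), x w i) ∈ S' i ∧
          ∀ v, y (.bit i v) ∈ C.Bits := by
        intro i
        refine (hiff i _ _ _ (hWm w i)).2 fun v => ?_
        have := h (.bit i v)
        simp only [T', hnb, if_false] at this
        exact this
      have hG : ∀ l : Lam C K I, ((π w, mg w y), mg w y l) ∈ l.T := by
        intro l
        by_cases hl : L l.tag = l
        · rw [← hl, hLT]
          simp only [hmgL, hmgb]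
          exact (hb _).1
        · have := h l
          simp only [T', hl, if_false] at this
          cases l with
          | bit i v => rw [hmgb]; exact (hb i).2 v
          | node i args S =>
            have e : mg w y (.node i args S) = y (.node i args S) := by simp only [mg, hl, if_false]
            rw [e]; exact this
      refine ⟨⟨(π w, mg w y), hG⟩, ?_, ?_⟩
      · refine hinj _ _ (hρ1 _) ?_
        rw [hρ2]
        funext i
        exact hmgL w y i
      · funext l
        by_cases hl : L l.tag = l
        · have := h l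
          simp only [T', hl, if_true, mem_ofPred_eq] at this
          simp only [x', hl, if_true, this]
        · simp only [x', mg, hl, if_false]
    · rintro ⟨g, rfl, rfl⟩ l
      by_cases hl : L l.tag = l
      · simp only [T', x', hl, if_true, mem_ofPred_eq]
      · simp only [T', hl, if_false]
        cases l with
        | bit i v =>
          have h1 := (hLT i g.1.1 g.1.2 _).1 (g.2 (L i))
          have h2 := (hiff i _ _ (fun v => g.1.2 (.bit i v)) (hWm (ρ g) i)).1
            ⟨by rw [hρ1, hρ2]; exact h1, hbit g i⟩ v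
          have e : (fun v' => x' g (.bit i v')) = fun v' => g.1.2 (.bit i v') := by
            funext v'
            simp only [x', hnb, if_false]
          simp only [T0, mem_ofPred_eq]
          rw [e, congrFun e v]
          exact h2
        | node i args S =>
          have e : x' g (.node i args S) = g.1.2 (.node i args S) := by
            simp only [x', hl, if_false]
          simp only [T0, mem_ofPred_eq]
          rw [hmgx, hρ1, e]
          exact g.2 _
  · refine hinj _ _ (by rw [hρ1, h0]; rfl) ?_
    rw [hρ2]
    funext i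
    induction i using hr.induction with
    | _ i ih =>
      have h1 := (hLT i g0.1.1 g0.1.2 _).1 (g0.2 (L i))
      rw [mask_congr ih] at h1
      have e : g0.1.1 = π w0 := h0.symm
      rw [e] at h1
      exact hpin i _ h1

end Pool.Agent.Work.MP_eb7862_gt
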