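import Pool.Agent.Work.MP_eb7862_gt.Zigzag
import Pool.Agent.Work.MP_eb7862_gt.Defs

/-!
Steps with clopen slices over a PF space can be pinned.
-/

universe u

namespace Pool.Agent.Work.MP_eb7862_gt

open Topology Set

/-- closed, total, with open slices -/
def ClSt {F : Type u} [TopologicalSpace F] (P : Type u) [TopologicalSpace P] (S : Set (P × F)) :
    Prop :=
  IsClosed S ∧ (∀ p, ∃ a, (p, a) ∈ S) ∧ ∀ a, IsOpen {p | (p, a) ∈ S}

theorem ClSt.isClopen_slice {F P : Type u} [TopologicalSpace F] [TopologicalSpace P]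
    {S : Set (P × F)} (h : ClSt P S) (a : F) : IsClopen {p | (p, a) ∈ S} :=
  ⟨h.1.preimage (f := fun p => (p, a)) (by fun_prop), h.2.2 a⟩

theorem isClopen_setOf_imp {X : Type*} [TopologicalSpace X] {p q : X → Prop}
    (hp : IsClopen {x | p x}) (hq : IsClopen {x | q x}) : IsClopen {x | p x → q x} := by
  have : {x | p x → q x} = {x | p x}ᶜ ∪ {x | q x} := by
    ext x; simp only [mem_ofPred_eq, mem_union, mem_compl_iff]; tauto
  rw [this]; exact hp.compl.union hq

theorem isClopen_setOf_const {X : Type*} [TopologicalSpace X] (p : Prop) :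
    IsClopen {_x : X | p} := by
  by_cases h : p
  · simp only [h, ofPred_true]; exact isClopen_univ
  · simp only [h, ofPred_false]; exact isClopen_empty

theorem isClopen_setOf_not_iff {X : Type*} [TopologicalSpace X] {p : X → Prop}
    (hp : IsClopen {x | p x}) (q : Prop) : IsClopen {x | ¬ (p x ↔ q)} := by
  by_cases h : q
  · simp only [h, iff_true]; exact hp.compl
  · simp only [h, iff_false, not_not]; exact hp

/-- the class of closed total steps with open slices over a PF space -/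
def pfClass {F : Type u} [TopologicalSpace F] [T1Space F] (hF : PF F) (B0 : Set F)
    (hB : IsClopen B0) (b1 : F) (hb1 : b1 ∈ B0) (b0 : F) (hb0 : b0 ∉ B0) : StepClass F where
  St := ClSt
  closed h := h.1
  total h := h.2.1
  pull f hf h := ⟨h.1.preimage ((hf.comp continuous_fst).prodMk continuous_snd),
    fun p => h.2.1 (f p), fun a => (h.2.2 a).preimage hf⟩
  c0 := b0
  const P _ := ⟨isClosed_singleton.preimage continuous_snd, fun _ => ⟨b0, rfl⟩,
    fun a => (isClopen_setOf_const (a = b0)).2⟩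
  Bits := univ
  free P _ := ⟨isClosed_univ.preimage continuous_snd, fun _ => ⟨b0, mem_univ _⟩,
    fun a => (isClopen_setOf_const (a ∈ univ)).2⟩
  U := Set F
  u0 := ∅
  ru := fun _ _ => False
  wf := ⟨fun a => ⟨a, fun _ h => h.elim⟩⟩
  pin := by
    intro P _ S hS p1 a1 h1 j _
    obtain ⟨𝒟, hcl, hun, hfin⟩ := hF a1
    have ha1 : ∀ D ∈ 𝒟, a1 ∉ D := fun D hD h => by
      have : a1 ∈ ⋃₀ 𝒟 := ⟨D, hD, h⟩
      rw [hun] at this
      exact this rfl
    have hN := hS.isClopen_slice a1
    refine ⟨{q | (q.1.1, q.2) ∈ S ∧ ∀ D ∈ 𝒟, (q.1.1, a1) ∈ S → q.2 ∈ D →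
        ¬ (q.1.2 D ∈ B0 ↔ j D ∈ B0)},
      fun D => {q | D ∈ 𝒟 → (q.1.1.1, a1) ∈ S → q.1.1.2 ∈ D → ¬ (q.2 ∈ B0 ↔ j D ∈ B0)},
      ⟨?_, ?_, ?_⟩, fun D => ⟨?_, ?_, ?_⟩, ?_, ?_, ?_, ?_⟩
    · rw [ofPred_and, ofPred_forall]
      refine (hS.1.preimage (f := fun q : (P × (Set F → F)) × F => (q.1.1, q.2))
        (by fun_prop)).inter (isClosed_iInter fun D => ?_)
      by_cases hD : D ∈ 𝒟
      · simp only [hD, true_imp_iff]
        refine (isClopen_setOf_imp (hN.preimage (f := fun q : (P × (Set F → F)) × F => q.1.1)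
          (by fun_prop)) (isClopen_setOf_imp ((hcl D hD).preimage continuous_snd)
          (isClopen_setOf_not_iff (hB.preimage
            (f := fun q : (P × (Set F → F)) × F => q.1.2 D) (by fun_prop)) _))).1
      · simp only [hD, false_imp_iff, ofPred_true]; exact isClosed_univ
    · rintro ⟨p, e⟩
      by_cases hp : (p, a1) ∈ S
      · exact ⟨a1, hp, fun D hD _ h => (ha1 D hD h).elim⟩
      · obtain ⟨a, ha⟩ := hS.2.1 p
        exact ⟨a, ha, fun D _ h => (hp h).elim⟩
    · intro a
      have : {p : P × (Set F → F) | (p.1, a) ∈ S ∧ ∀ D ∈ 𝒟, (p.1, a1) ∈ S → a ∈ D →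
          ¬ (p.2 D ∈ B0 ↔ j D ∈ B0)} = {p | (p.1, a) ∈ S} ∩ ⋂ D ∈ {D ∈ 𝒟 | a ∈ D},
          {p | (p.1, a1) ∈ S → ¬ (p.2 D ∈ B0 ↔ j D ∈ B0)} := by
        ext p
        simp only [mem_ofPred_eq, mem_inter_iff, mem_iInter]
        constructor
        · rintro ⟨h1, h2⟩
          exact ⟨h1, fun D hD h => h2 D hD.1 h hD.2⟩
        · rintro ⟨h1, h2⟩
          exact ⟨h1, fun D hD h h' => h2 D ⟨hD, h'⟩ h⟩
      show IsOpen {p : P × (Set F → F) | (p.1, a) ∈ S ∧ ∀ D ∈ 𝒟, (p.1, a1) ∈ S → a ∈ D →
          ¬ (p.2 D ∈ B0 ↔ j D ∈ B0)}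
      rw [this]
      refine ((hS.2.2 a).preimage continuous_fst).inter ((hfin a).isOpen_biInter fun D _ => ?_)
      exact (isClopen_setOf_imp (hN.preimage continuous_fst) (isClopen_setOf_not_iff
        (hB.preimage (f := fun p : P × (Set F → F) => p.2 D) (by fun_prop)) _)).2
    · by_cases hD : D ∈ 𝒟
      · simp only [hD, true_imp_iff]
        exact (isClopen_setOf_imp
          (hN.preimage (f := fun q : ((P × F) × (Set F → F)) × F => q.1.1.1) (by fun_prop))
          (isClopen_setOf_imp ((hcl D hD).preimage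
            (f := fun q : ((P × F) × (Set F → F)) × F => q.1.1.2) (by fun_prop))
          (isClopen_setOf_not_iff (hB.preimage continuous_snd) _))).1
      · simp only [hD, false_imp_iff, ofPred_true]; exact isClosed_univ
    · intro p
      by_cases hj : j D ∈ B0
      · exact ⟨b0, fun _ _ _ h => hb0 (h.2 hj)⟩
      · exact ⟨b1, fun _ _ _ h => hj (h.1 hb1)⟩
    · intro c
      by_cases hD : D ∈ 𝒟
      · show IsOpen {p : (P × F) × (Set F → F) |
          D ∈ 𝒟 → (p.1.1, a1) ∈ S → p.1.2 ∈ D → ¬ (c ∈ B0 ↔ j D ∈ B0)}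
        simp only [hD, true_imp_iff]
        exact (isClopen_setOf_imp
          (hN.preimage (f := fun q : (P × F) × (Set F → F) => q.1.1) (by fun_prop))
          (isClopen_setOf_imp ((hcl D hD).preimage
            (f := fun q : (P × F) × (Set F → F) => q.1.2) (by fun_prop))
          (isClopen_setOf_const _))).2
      · show IsOpen {p : (P × F) × (Set F → F) |
          D ∈ 𝒟 → (p.1.1, a1) ∈ S → p.1.2 ∈ D → ¬ (c ∈ B0 ↔ j D ∈ B0)}
        simp only [hD, false_imp_iff, ofPred_true]; exact isOpen_univ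
    · intro a ha
      by_contra hne
      have : a ∈ ⋃₀ 𝒟 := by rw [hun]; exact hne
      obtain ⟨D, hD, haD⟩ := this
      exact ha.2 D hD h1 haD Iff.rfl
    · intro p e a h
      exact h.1
    · intro v q e e' c _ h
      exact h
    · intro p a e h
      constructor
      · rintro ⟨h', -⟩ D
        exact h'.2 D
      · intro h'
        exact ⟨⟨h, h'⟩, fun _ => mem_univ _⟩

section Sigma

variable {ι : Type u} {F : ι → Type u} [∀ i, TopologicalSpace (F i)]

/-- the inclusion of a summand in the one-point compactification of the sum -/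
def inc (i : ι) (a : F i) : OnePoint (Σ i, F i) := ((⟨i, a⟩ : Σ i, F i) : OnePoint (Σ i, F i))

theorem isOpenEmbedding_inc (i : ι) : IsOpenEmbedding (inc (F := F) i) :=
  OnePoint.isOpenEmbedding_coe.comp IsOpenEmbedding.sigmaMk

omit [∀ i, TopologicalSpace (F i)] in
theorem inc_eq_inc {i i' : ι} {a : F i} {a' : F i'} (h : inc i a = inc i' a') : i = i' :=
  congrArg Sigma.fst (OnePoint.coe_injective h)

variable [∀ i, CompactSpace (F i)]

instance : WeaklyLocallyCompactSpace (Σ i, F i) where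
  exists_compact_mem_nhds := fun ⟨i, a⟩ =>
    ⟨range (Sigma.mk i), isCompact_range continuous_sigmaMk,
      isOpen_range_sigmaMk.mem_nhds ⟨a, rfl⟩⟩

variable [∀ i, T2Space (F i)]

theorem isClopen_image_inc (i : ι) {D : Set (F i)} (hD : IsClopen D) :
    IsClopen (inc i '' D) :=
  ⟨(hD.1.isCompact.image (isOpenEmbedding_inc i).continuous).isClosed,
    (isOpenEmbedding_inc i).isOpenMap D hD.2⟩

theorem pf_onePoint_sigma (hF : ∀ i, PF (F i)) : PF (OnePoint (Σ i, F i)) := by
  intro a
  induction a using OnePoint.rec with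
  | infty =>
    refine ⟨range fun i => inc (F := F) i '' univ, ?_, ?_, ?_⟩
    · rintro _ ⟨i, rfl⟩
      exact isClopen_image_inc i isClopen_univ
    · ext b
      induction b using OnePoint.rec with
      | infty =>
        simp only [mem_sUnion, mem_compl_iff, mem_singleton_iff, not_true, iff_false]
        rintro ⟨_, ⟨i, rfl⟩, a, -, h⟩
        exact OnePoint.coe_ne_infty _ h
      | coe b =>
        simp only [mem_sUnion, mem_compl_iff, mem_singleton_iff, OnePoint.coe_ne_infty,
          not_false_iff, iff_true]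
        exact ⟨_, ⟨b.1, rfl⟩, b.2, mem_univ _, rfl⟩
    · intro b
      refine Subsingleton.finite ?_
      rintro _ ⟨⟨i, rfl⟩, a, -, rfl⟩ _ ⟨⟨i', rfl⟩, a', -, h⟩
      obtain rfl := inc_eq_inc h
      rfl
  | coe a =>
    obtain ⟨i, a⟩ := a
    obtain ⟨𝒟, hcl, hun, hfin⟩ := hF i a
    refine ⟨insert (inc i '' univ)ᶜ ((fun D => inc i '' D) '' 𝒟), ?_, ?_, ?_⟩
    · rintro _ (rfl | ⟨D, hD, rfl⟩)
      · exact (isClopen_image_inc i isClopen_univ).compl
      · exact isClopen_image_inc i (hcl D hD)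
    · ext b
      rw [sUnion_insert]
      constructor
      · rintro (h | ⟨_, ⟨D, hD, rfl⟩, c, hc, rfl⟩) h'
        · exact h ⟨a, mem_univ _, h'.symm⟩
        · have hca : c = a := (isOpenEmbedding_inc i).injective h'
          have : c ∈ ⋃₀ 𝒟 := ⟨D, hD, hc⟩
          rw [hun] at this
          exact this hca
      · intro h
        by_cases hb : b ∈ inc (F := F) i '' univ
        · obtain ⟨c, -, rfl⟩ := hb
          have : c ∈ ⋃₀ 𝒟 := by
            rw [hun]
            rintro rfl
            exact h rfl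
          obtain ⟨D, hD, hc⟩ := this
          exact Or.inr ⟨_, ⟨D, hD, rfl⟩, c, hc, rfl⟩
        · exact Or.inl hb
    · intro b
      by_cases hb : b ∈ inc (F := F) i '' univ
      · obtain ⟨c, -, rfl⟩ := hb
        refine (((hfin c).image fun D => inc i '' D).insert (inc i '' univ)ᶜ).subset ?_
        rintro _ ⟨rfl | ⟨D, hD, rfl⟩, h⟩
        · exact Or.inl rfl
        · obtain ⟨c', hc', h⟩ := h
          obtain rfl := (isOpenEmbedding_inc i).injective h
          exact Or.inr ⟨D, ⟨hD, hc'⟩, rfl⟩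
      · refine (finite_singleton (inc i '' univ)ᶜ).subset ?_
        rintro _ ⟨rfl | ⟨D, hD, rfl⟩, h⟩
        · rfl
        · obtain ⟨c', -, h⟩ := h
          exact (hb ⟨c', mem_univ _, h⟩).elim

theorem exists_homogeneous_onto_pi (hF : ∀ i, PF (F i)) :
    ∃ (Y : Type u) (_ : TopologicalSpace Y), CompactSpace Y ∧ T2Space Y ∧
      (∀ y y' : Y, ∃ h : Y ≃ₜ Y, h y = y') ∧
      ∃ q : Y → ∀ i, F i, Continuous q ∧ Function.Surjective q := by
  by_cases hne : Nonempty (Σ i, F i)
  swap
  · have hs : Subsingleton (∀ i, F i) := ⟨fun x y => funext fun i => (hne ⟨⟨i, x i⟩⟩).elim⟩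
    exact ⟨∀ i, F i, inferInstance, inferInstance, inferInstance,
      fun y y' => ⟨Homeomorph.refl _, Subsingleton.elim _ _⟩, id, continuous_id,
      Function.surjective_id⟩
  by_cases hne' : ∀ i, Nonempty (F i)
  swap
  · have hs : IsEmpty (∀ i, F i) := ⟨fun x => hne' fun i => ⟨x i⟩⟩
    exact ⟨∀ i, F i, inferInstance, inferInstance, inferInstance,
      fun y => hs.elim y, id, continuous_id, Function.surjective_id⟩
  obtain ⟨i0, a0⟩ := hne
  let C := pfClass (pf_onePoint_sigma hF) (inc i0 '' univ) (isClopen_image_inc i0 isClopen_univ)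
    (inc i0 a0) ⟨a0, mem_univ _, rfl⟩ OnePoint.infty
    (fun ⟨_, _, h⟩ => OnePoint.coe_ne_infty _ h)
  refine exists_homogeneous C (I := ι) ⟨continuous_const, fun _ _ => False,
    fun i => {q | q.2 ∈ inc (F := F) i '' univ}, fun w i => inc i (w i),
    ⟨fun a => ⟨a, fun _ h => h.elim⟩⟩, fun i => ⟨?_, ?_, ?_⟩, fun _ _ _ _ _ _ h => h, ?_, ?_, ?_⟩
  · exact (isClopen_image_inc i isClopen_univ).1.preimage continuous_snd
  · intro _
    obtain ⟨a⟩ := hne' i
    exact ⟨inc i a, a, mem_univ _, rfl⟩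
  · intro a
    exact (isClopen_setOf_const (a ∈ inc (F := F) i '' univ)).2
  · exact continuous_pi fun i => (isOpenEmbedding_inc i).continuous.comp (continuous_apply i)
  · intro w w' _ h
    exact funext fun i => (isOpenEmbedding_inc i).injective (congrFun h i)
  · intro k y
    constructor
    · intro h
      choose w _ hw using h
      exact ⟨w, rfl, funext hw⟩
    · rintro ⟨w, -, rfl⟩ i
      exact ⟨w i, mem_univ _, rfl⟩

end Sigma

end Pool.Agent.Work.MP_eb7862_gt
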