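import Mathlib

-- merged part: Pool.Agent.Work.MP_eb7862_gt.Terms
section
/-!
The set of variables: terms with positions, integer exception counters and shift actions.
-/

universe u

namespace Pool.Agent.Work.MP_eb7862_gt

/-- raw terms -/
inductive Raw (Λ : Type u) : Type u
  | leaf : Λ → Raw Λ
  | add : Raw Λ → Raw Λ → ℤ → Raw Λ

/-- generating relation -/
inductive Raw.Rel {Λ : Type u} : Raw Λ → Raw Λ → Prop
  | zero (a b : Raw Λ) : Raw.Rel (.add a b 0) a
  | merge (a b : Raw Λ) (k l : ℤ) : Raw.Rel (.add (.add a b k) b l) (.add a b (k + l))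
  | left (a a' b : Raw Λ) (k : ℤ) : Raw.Rel a a' → Raw.Rel (.add a b k) (.add a' b k)
  | right (a b b' : Raw Λ) (k : ℤ) : Raw.Rel b b' → Raw.Rel (.add a b k) (.add a b' k)

/-- variables -/
def Var (Λ : Type u) : Type u := Quot (Raw.Rel (Λ := Λ))

variable {Λ : Type u}

/-- class of a raw term -/
def Var.mk (a : Raw Λ) : Var Λ := Quot.mk _ a

/-- original variables -/
def Var.o (p : Λ) : Var Λ := Var.mk (.leaf p)

/-- adding an entry -/
def Var.add (a b : Var Λ) (k : ℤ) : Var Λ :=
  Quot.map₂ (t := Raw.Rel) (fun a b => Raw.add a b k) (fun a b b' h => .right a b b' k h)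
    (fun a a' b h => .left a a' b k h) a b

theorem Var.add_mk (a b : Raw Λ) (k : ℤ) :
    Var.add (Var.mk a) (Var.mk b) k = Var.mk (.add a b k) := rfl

theorem Var.ind {P : Var Λ → Prop} (h0 : ∀ p, P (Var.o p))
    (h1 : ∀ a b k, P a → P b → P (Var.add a b k)) (a : Var Λ) : P a := by
  induction a using Quot.ind with
  | _ a =>
    induction a with
    | leaf p => exact h0 p
    | add a b k iha ihb => exact h1 _ _ k iha ihb

theorem Var.add_zero (a b : Var Λ) : Var.add a b 0 = a := by
  induction a using Quot.ind with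
  | _ a =>
    induction b using Quot.ind with
    | _ b => exact Quot.sound (.zero a b)

theorem Var.add_add (a b : Var Λ) (k l : ℤ) :
    Var.add (Var.add a b k) b l = Var.add a b (k + l) := by
  induction a using Quot.ind with
  | _ a =>
    induction b using Quot.ind with
    | _ b => exact Quot.sound (.merge a b k l)

/-- position of a raw term -/
def Raw.pos : Raw Λ → Λ
  | .leaf p => p
  | .add a _ _ => a.pos

theorem Raw.pos_rel {a b : Raw Λ} (h : Raw.Rel a b) : a.pos = b.pos := by
  induction h with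
  | zero a b => rfl
  | merge a b k l => rfl
  | left a a' b k _ ih => exact ih
  | right a b b' k _ _ => rfl

/-- position of a variable -/
def Var.pos : Var Λ → Λ := Quot.lift Raw.pos fun _ _ h => Raw.pos_rel h

@[simp] theorem Var.pos_o (p : Λ) : (Var.o p).pos = p := rfl

@[simp] theorem Var.pos_add (a b : Var Λ) (k : ℤ) : (Var.add a b k).pos = a.pos := by
  induction a using Quot.ind with
  | _ a =>
    induction b using Quot.ind with
    | _ b => rfl

open Classical in
/-- counter of a raw term -/
noncomputable def Raw.cnt : Raw Λ → Var Λ → ℤ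
  | .leaf _, _ => 0
  | .add a b k, w => a.cnt w + if Var.mk b = w then k else 0

theorem Raw.cnt_rel {a b : Raw Λ} (h : Raw.Rel a b) : a.cnt = b.cnt := by
  funext w
  induction h with
  | zero a b => simp [Raw.cnt]
  | merge a b k l =>
    simp only [Raw.cnt]
    split_ifs <;> ring
  | left a a' b k _ ih => simp only [Raw.cnt, ih]
  | right a b b' k h _ =>
    have : Var.mk b = Var.mk b' := Quot.sound h
    simp only [Raw.cnt]
    rw [this]

/-- counter of a variable -/
noncomputable def Var.cnt : Var Λ → Var Λ → ℤ := Quot.lift Raw.cnt fun _ _ h => Raw.cnt_rel h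

@[simp] theorem Var.cnt_o (p : Λ) (w : Var Λ) : (Var.o p).cnt w = 0 := rfl

open Classical in
theorem Var.cnt_add (a b w : Var Λ) (k : ℤ) :
    (Var.add a b k).cnt w = a.cnt w + if b = w then k else 0 := by
  induction a using Quot.ind with
  | _ a =>
    induction b using Quot.ind with
    | _ b => rfl

/-- shift on raw terms -/
def Raw.sh (v : Λ) (c : Λ → ℤ) : Raw Λ → Var Λ
  | .leaf p => Var.add (Var.o p) (Var.o v) (c p)
  | .add a b k => Var.add (a.sh v c) (b.sh v c) k

theorem Raw.sh_rel (v : Λ) (c : Λ → ℤ) {a b : Raw Λ} (h : Raw.Rel a b) :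
    a.sh v c = b.sh v c := by
  induction h with
  | zero a b => simp only [Raw.sh, Var.add_zero]
  | merge a b k l => simp only [Raw.sh, Var.add_add]
  | left a a' b k _ ih => simp only [Raw.sh, ih]
  | right a b b' k _ ih => simp only [Raw.sh, ih]

/-- shift on variables -/
def Var.sh (v : Λ) (c : Λ → ℤ) : Var Λ → Var Λ :=
  Quot.lift (Raw.sh v c) fun _ _ h => Raw.sh_rel v c h

theorem Var.sh_o (v : Λ) (c : Λ → ℤ) (p : Λ) :
    Var.sh v c (Var.o p) = Var.add (Var.o p) (Var.o v) (c p) := rfl

theorem Var.sh_add (v : Λ) (c : Λ → ℤ) (a b : Var Λ) (k : ℤ) :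
    Var.sh v c (Var.add a b k) = Var.add (Var.sh v c a) (Var.sh v c b) k := by
  induction a using Quot.ind with
  | _ a =>
    induction b using Quot.ind with
    | _ b => rfl

theorem Var.sh_self {v : Λ} {c : Λ → ℤ} (hc : c v = 0) : Var.sh v c (Var.o v) = Var.o v := by
  rw [Var.sh_o, hc, Var.add_zero]

@[simp] theorem Var.pos_sh (v : Λ) (c : Λ → ℤ) (a : Var Λ) : (Var.sh v c a).pos = a.pos := by
  induction a using Var.ind with
  | h0 p => rw [Var.sh_o, Var.pos_add]
  | h1 a b k iha _ => rw [Var.sh_add, Var.pos_add, Var.pos_add, iha]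

theorem Var.sh_sh {v : Λ} {c c' : Λ → ℤ} (hc : c v = 0) (h : ∀ p, c p + c' p = 0) (a : Var Λ) :
    Var.sh v c (Var.sh v c' a) = a := by
  induction a using Var.ind with
  | h0 p => rw [Var.sh_o, Var.sh_add, Var.sh_self hc, Var.sh_o, Var.add_add, h, Var.add_zero]
  | h1 a b k iha ihb => rw [Var.sh_add, Var.sh_add, iha, ihb]

theorem Var.sh_zero {v : Λ} {c : Λ → ℤ} (h : ∀ p, c p = 0) (a : Var Λ) : Var.sh v c a = a := by
  induction a using Var.ind with
  | h0 p => rw [Var.sh_o, h, Var.add_zero]
  | h1 a b k iha ihb => rw [Var.sh_add, iha, ihb]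

theorem Var.sh_injective {v : Λ} {c : Λ → ℤ} (hc : c v = 0) :
    Function.Injective (Var.sh v c) :=
  Function.LeftInverse.injective (g := Var.sh v fun p => -c p)
    (Var.sh_sh (by simp [hc]) (by simp))

theorem Var.sh_eq_o {v : Λ} {c : Λ → ℤ} (hc : c v = 0) {a : Var Λ} :
    Var.sh v c a = Var.o v ↔ a = Var.o v := by
  constructor
  · intro h
    exact Var.sh_injective hc (h.trans (Var.sh_self hc).symm)
  · rintro rfl
    exact Var.sh_self hc

open Classical in
theorem Var.cnt_sh {v : Λ} {c : Λ → ℤ} (hc : c v = 0) (a w : Var Λ) :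
    (Var.sh v c a).cnt (Var.sh v c w) = a.cnt w + if w = Var.o v then c a.pos else 0 := by
  induction a using Var.ind with
  | h0 p =>
    rw [Var.sh_o, Var.cnt_add]
    simp only [Var.cnt_o, Var.pos_o, eq_comm (a := Var.o v), Var.sh_eq_o hc]
  | h1 a b k iha _ =>
    rw [Var.sh_add, Var.cnt_add, Var.cnt_add, iha, Var.pos_add]
    simp only [(Var.sh_injective hc).eq_iff]
    ring

theorem Var.sh_dep (v : Λ) (a : Var Λ) :
    ∃ S : Set Λ, S.Finite ∧ ∀ c c' : Λ → ℤ, (∀ p ∈ S, c p = c' p) →
      Var.sh v c a = Var.sh v c' a := by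
  induction a using Var.ind with
  | h0 p =>
    exact ⟨{p}, Set.finite_singleton p, fun c c' h => by rw [Var.sh_o, Var.sh_o, h p rfl]⟩
  | h1 a b k iha ihb =>
    obtain ⟨S, hS, h1⟩ := iha
    obtain ⟨S', hS', h2⟩ := ihb
    refine ⟨S ∪ S', hS.union hS', fun c c' h => ?_⟩
    rw [Var.sh_add, Var.sh_add, h1 c c' fun p hp => h p (Or.inl hp),
      h2 c c' fun p hp => h p (Or.inr hp)]

end Pool.Agent.Work.MP_eb7862_gt
end

-- merged part: Pool.Agent.Work.MP_eb7862_gt.Factor
section
/-!
For a zero-dimensional compactum `Z` and `z0 ∈ Z`, a compactum all of whose points look like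
`(z0, r)` in a product decomposition `Z × R`.
-/

universe u

namespace Pool.Agent.Work.MP_eb7862_gt

open Topology Set

/-- a symmetric system of clopen conflict sets forcing some coordinate to be `z0` -/
theorem exists_conflicts (Z : Type u) [TopologicalSpace Z] [CompactSpace Z] [T2Space Z]
    [TotallyDisconnectedSpace Z] (z0 : Z) :
    ∃ D : (Z → Bool) → (Z → Bool) → Set Z, (∀ p q, IsClopen (D p q)) ∧ (∀ p q, D p q = D q p) ∧
      (∀ p, D p p = ∅) ∧ (∀ p q, z0 ∉ D p q) ∧
      ∀ f : (Z → Bool) → Z, (∀ p q, ¬ (f p ∈ D p q ∧ f q ∈ D p q)) → ∃ p, f p = z0 := by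
  classical
  have h1 : ∀ z : Z, ∃ U : Set Z, IsClopen U ∧ z0 ∉ U ∧ (z ≠ z0 → z ∈ U) := by
    intro z
    by_cases hz : z = z0
    · exact ⟨∅, isClopen_empty, fun h => h, fun h => (h hz).elim⟩
    · obtain ⟨U, hU, h1, h2⟩ := exists_isClopen_of_totally_separated hz
      exact ⟨U, hU, h2, fun _ => h1⟩
  choose U hU hU0 hU1 using h1
  obtain ⟨inst, hwf⟩ := exists_wellFoundedLT Z
  refine ⟨fun p q => {x | ∃ a, p a ≠ q a ∧ (∀ b, b < a → p b = q b) ∧ x ∈ U a},
    ?_, ?_, ?_, ?_, ?_⟩
  · intro p q
    by_cases h : ∃ a, p a ≠ q a ∧ ∀ b, b < a → p b = q b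
    · obtain ⟨a, ha1, ha2⟩ := h
      have : {x | ∃ a, p a ≠ q a ∧ (∀ b, b < a → p b = q b) ∧ x ∈ U a} = U a := by
        ext x
        constructor
        · rintro ⟨a', h1, h2, h3⟩
          rcases lt_trichotomy a a' with h | rfl | h
          · exact (ha1 (h2 a h)).elim
          · exact h3
          · exact (h1 (ha2 a' h)).elim
        · exact fun h => ⟨a, ha1, ha2, h⟩
      beta_reduce
      rw [this]
      exact hU a
    · have : {x | ∃ a, p a ≠ q a ∧ (∀ b, b < a → p b = q b) ∧ x ∈ U a} = ∅ := by
        ext x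
        constructor
        · rintro ⟨a', h1, h2, -⟩
          exact h ⟨a', h1, h2⟩
        · exact fun h => h.elim
      beta_reduce
      rw [this]
      exact isClopen_empty
  · intro p q
    ext x
    constructor
    · rintro ⟨a, h1, h2, h3⟩
      exact ⟨a, h1.symm, fun b hb => (h2 b hb).symm, h3⟩
    · rintro ⟨a, h1, h2, h3⟩
      exact ⟨a, h1.symm, fun b hb => (h2 b hb).symm, h3⟩
  · intro p
    ext x
    constructor
    · rintro ⟨a, h1, -⟩
      exact h1 rfl
    · exact fun h => h.elim
  · rintro p q ⟨a, -, -, h⟩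
    exact hU0 a h
  · intro f hf
    let p : Z → Bool := (wellFounded_lt (α := Z)).fix fun a rec =>
      decide (∃ q : Z → Bool, (∀ b (h : b < a), q b = rec b h) ∧ q a = false ∧ f q ∈ U a)
    have hp : ∀ a, p a =
        decide (∃ q : Z → Bool, (∀ b (_ : b < a), q b = p b) ∧ q a = false ∧ f q ∈ U a) :=
      fun a => (wellFounded_lt (α := Z)).fix_eq _ a
    refine ⟨p, ?_⟩
    by_contra hne
    have hmem := hU1 (f p) hne
    by_cases h : ∃ q : Z → Bool, (∀ b (_ : b < f p), q b = p b) ∧ q (f p) = false ∧ f q ∈ U (f p)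
    · have h2 : p (f p) = true := by rw [hp]; exact decide_eq_true h
      obtain ⟨q, hq1, hq2, hq3⟩ := h
      refine hf p q ⟨⟨f p, ?_, fun b hb => (hq1 b hb).symm, hmem⟩,
        ⟨f p, ?_, fun b hb => (hq1 b hb).symm, hq3⟩⟩ <;> simp [h2, hq2]
    · have h2 : p (f p) = false := by rw [hp]; exact decide_eq_false h
      exact h ⟨p, fun _ _ => rfl, h2, hmem⟩

section Gadget

variable {Λ Z : Type u} [TopologicalSpace Z] (D : Λ → Λ → Set Z)

/-- the gadget: assignments respecting range restrictions and conflicts -/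
def GSet : Set (Var Λ → Z) :=
  {y | (∀ a w : Var Λ, a.cnt w < 0 → y a ∉ D a.pos w.pos) ∧
    ∀ a w : Var Λ, a.cnt w = 0 → w.cnt a = 0 → ¬ (y a ∈ D a.pos w.pos ∧ y w ∈ D a.pos w.pos)}

variable {D}

theorem isClosed_GSet (hD : ∀ p q, IsClopen (D p q)) : IsClosed (GSet D) := by
  unfold GSet
  rw [ofPred_and]
  refine IsClosed.inter ?_ ?_
  · simp only [ofPred_forall]
    exact isClosed_iInter fun a => isClosed_iInter fun w => isClosed_iInter fun _ =>
      ((hD _ _).preimage (continuous_apply a)).compl.1
  · simp only [ofPred_forall]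
    exact isClosed_iInter fun a => isClosed_iInter fun w => isClosed_iInter fun _ =>
      isClosed_iInter fun _ => (((hD _ _).preimage (continuous_apply a)).inter
        ((hD _ _).preimage (continuous_apply w))).compl.1

open Classical in
/-- the shift vector attached to a value of the distinguished coordinate -/
noncomputable def cv (D : Λ → Λ → Set Z) (v : Λ) (x : Z) (p : Λ) : ℤ :=
  if x ∈ D p v then 1 else 0

/-- the opposite shift vector -/
noncomputable def cn (D : Λ → Λ → Set Z) (v : Λ) (x : Z) (p : Λ) : ℤ := -cv D v x p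

theorem continuous_shift (hD : ∀ p q, IsClopen (D p q)) (v : Λ) (g : ℤ → ℤ) (a : Var Λ)
    {T : Type u} [TopologicalSpace T] {x : T → Z} {y : T → Var Λ → Z} (hx : Continuous x)
    (hy : Continuous y) :
    Continuous fun t => y t (Var.sh v (fun p => g (cv D v (x t) p)) a) := by
  obtain ⟨S, hS, h⟩ := Var.sh_dep v a
  rw [continuous_iff_continuousAt]
  intro t0
  have h1 : ∀ᶠ t in 𝓝 t0, ∀ p ∈ S, cv D v (x t) p = cv D v (x t0) p := by
    rw [hS.eventually_all]
    intro p _
    by_cases hp : x t0 ∈ D p v
    · filter_upwards [((hD p v).2.preimage hx).mem_nhds hp] with t ht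
      have ht' : x t ∈ D p v := ht
      simp [cv, hp, ht']
    · filter_upwards [((hD p v).compl.2.preimage hx).mem_nhds hp] with t ht
      have ht' : x t ∉ D p v := ht
      simp [cv, hp, ht']
  refine ContinuousAt.congr (f := fun t => y t (Var.sh v (fun p => g (cv D v (x t0) p)) a))
    ((continuous_apply _).comp hy).continuousAt ?_
  filter_upwards [h1] with t ht
  rw [h _ _ fun p hp => congrArg g (ht p hp)]

theorem exists_factor (hD : ∀ p q, IsClopen (D p q)) (hs : ∀ p q, D p q = D q p)
    (h0 : ∀ p, D p p = ∅) {z0 : Z} (hz : ∀ p q, z0 ∉ D p q) (v : Λ) :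
    ∃ h : GSet D ≃ₜ Z × {r : GSet D // r.1 (Var.o v) = z0},
      ∀ y, (h y).1 = y.1 (Var.o v) := by
  classical
  have hc : ∀ x, cv D v x v = 0 := fun x => by simp [cv, h0]
  have hc' : ∀ x, cn D v x v = 0 := fun x => by simp [cn, hc]
  have hc0 : ∀ x p, 0 ≤ cv D v x p := fun x p => by
    unfold cv; split_ifs <;> simp
  have hno : ∀ a w : Var Λ, a.cnt w < 0 → a ≠ Var.o v := by
    rintro a w h rfl
    simp at h
  let Ψ : (Var Λ → Z) → Var Λ → Z := fun y a =>
    if a = Var.o v then z0 else y (Var.sh v (cv D v (y (Var.o v))) a)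
  let Φ : Z → (Var Λ → Z) → Var Λ → Z := fun x r a =>
    if a = Var.o v then x else r (Var.sh v (cn D v x) a)
  have hΨ : ∀ y ∈ GSet D, Ψ y ∈ GSet D := by
    intro y hy
    constructor
    · intro a w h
      have ha := hno a w h
      simp only [Ψ, ha, if_false]
      have h1 := Var.cnt_sh (hc (y (Var.o v))) a w
      by_cases h2 : (Var.sh v (cv D v (y (Var.o v))) a).cnt
          (Var.sh v (cv D v (y (Var.o v))) w) < 0
      · simpa using hy.1 _ _ h2
      · have hw : w = Var.o v := by
          by_contra hw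
          rw [if_neg hw] at h1
          omega
        subst hw
        rw [if_pos rfl, Var.sh_self (hc _)] at h1
        rw [Var.sh_self (hc _)] at h2
        have hx : y (Var.o v) ∈ D a.pos v := by
          by_contra hx
          have : cv D v (y (Var.o v)) a.pos = 0 := by simp [cv, hx]
          omega
        have h3 : (Var.sh v (cv D v (y (Var.o v))) a).cnt (Var.o v) = 0 := by
          have : cv D v (y (Var.o v)) a.pos = 1 := by simp [cv, hx]
          omega
        have h4 := hy.2 _ _ h3 (Var.cnt_o _ _)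
        simp only [Var.pos_sh, Var.pos_o] at h4 ⊢
        exact fun h5 => h4 ⟨h5, hx⟩
    · intro a w h h'
      by_cases ha : a = Var.o v
      · simp only [Ψ, ha, if_true]
        exact fun h => hz _ _ h.1
      by_cases hw : w = Var.o v
      · simp only [Ψ, hw, if_true]
        exact fun h => hz _ _ h.2
      simp only [Ψ, ha, hw, if_false]
      have h1 := Var.cnt_sh (hc (y (Var.o v))) a w
      have h2 := Var.cnt_sh (hc (y (Var.o v))) w a
      rw [if_neg hw, h] at h1
      rw [if_neg ha, h'] at h2
      simpa using hy.2 _ _ h1 h2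
  have hΦ : ∀ x, ∀ r ∈ GSet D, Φ x r ∈ GSet D := by
    intro x r hr
    have key : ∀ a : Var Λ, a.cnt (Var.o v) = 0 → x ∈ D a.pos v →
        r (Var.sh v (cn D v x) a) ∉ D a.pos v := by
      intro a h hx
      have h1 := Var.cnt_sh (hc' x) a (Var.o v)
      rw [if_pos rfl, h] at h1
      have : cn D v x a.pos = -1 := by simp [cn, cv, hx]
      have h3 := hr.1 (Var.sh v (cn D v x) a) (Var.sh v (cn D v x) (Var.o v))
        (by rw [h1, this]; simp)
      rwa [Var.pos_sh, Var.pos_sh] at h3
    constructor
    · intro a w h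
      have ha := hno a w h
      simp only [Φ, ha, if_false]
      have h1 := Var.cnt_sh (hc' x) a w
      have h2 : cn D v x a.pos ≤ 0 := by simpa [cn] using hc0 x a.pos
      have h3 := hr.1 (Var.sh v (cn D v x) a) (Var.sh v (cn D v x) w)
        (by rw [h1]; split_ifs <;> omega)
      rwa [Var.pos_sh, Var.pos_sh] at h3
    · intro a w h h'
      by_cases ha : a = Var.o v
      · by_cases hw : w = Var.o v
        · subst ha hw
          simp [h0]
        · subst ha
          simp only [Φ, hw, if_true, if_false, Var.pos_o]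
          rw [hs]
          exact fun h5 => key w h' h5.1 h5.2
      by_cases hw : w = Var.o v
      · subst hw
        simp only [Φ, ha, if_true, if_false, Var.pos_o]
        exact fun h5 => key a h h5.2 h5.1
      simp only [Φ, ha, hw, if_false]
      have h1 := Var.cnt_sh (hc' x) a w
      have h2 := Var.cnt_sh (hc' x) w a
      rw [if_neg hw, h] at h1
      rw [if_neg ha, h'] at h2
      simpa using hr.2 _ _ h1 h2
  refine ⟨{ toFun := fun y => (y.1 (Var.o v), ⟨⟨Ψ y.1, hΨ y.1 y.2⟩, by simp [Ψ]⟩)
            invFun := fun t => ⟨Φ t.1 t.2.1.1, hΦ _ _ t.2.1.2⟩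
            left_inv := fun y => ?_
            right_inv := fun t => ?_
            continuous_toFun := ?_
            continuous_invFun := ?_ }, fun _ => rfl⟩
  · refine Subtype.ext (funext fun a => ?_)
    by_cases ha : a = Var.o v
    · simp only [Φ, ha, if_true]
    · simp only [Φ, Ψ, ha, if_false, Var.sh_eq_o (hc' _)]
      rw [Var.sh_sh (hc _) (by simp [cn])]
  · have e : Φ t.1 t.2.1.1 (Var.o v) = t.1 := by simp [Φ]
    refine Prod.ext e (Subtype.ext (Subtype.ext (funext fun a => ?_)))
    by_cases ha : a = Var.o v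
    · simp only [Ψ, ha, if_true]
      exact t.2.2.symm
    · simp only [Ψ, ha, if_false, e]
      simp only [Φ, Var.sh_eq_o (hc _), ha, if_false]
      rw [Var.sh_sh (hc' _) (by simp [cn])]
  · refine ((continuous_apply _).comp continuous_subtype_val).prodMk
      (Continuous.subtype_mk (Continuous.subtype_mk (continuous_pi fun a => ?_) _) _)
    by_cases ha : a = Var.o v
    · simp only [Ψ, ha, if_true]
      exact continuous_const
    · simp only [Ψ, ha, if_false]
      exact continuous_shift hD v id a ((continuous_apply _).comp continuous_subtype_val)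
        continuous_subtype_val
  · refine Continuous.subtype_mk (continuous_pi fun a => ?_) _
    by_cases ha : a = Var.o v
    · simp only [Φ, ha, if_true]
      exact continuous_fst
    · simp only [Φ, ha, if_false]
      exact continuous_shift hD v (fun k => -k) a continuous_fst
        (continuous_subtype_val.comp (continuous_subtype_val.comp continuous_snd))

end Gadget

/-- For every zero-dimensional compactum `Z` and point `z0` there is a nonempty zero-dimensional
compactum `G` such that `(Z, z0)` is a factor of `(G, g)` for every point `g`. -/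
theorem exists_gadget (Z : Type u) [TopologicalSpace Z] [CompactSpace Z] [T2Space Z]
    [TotallyDisconnectedSpace Z] (z0 : Z) :
    ∃ (G : Type u) (_ : TopologicalSpace G), CompactSpace G ∧ T2Space G ∧
      TotallyDisconnectedSpace G ∧ Nonempty G ∧
      ∀ g : G, ∃ (R : Type u) (_ : TopologicalSpace R) (h : G ≃ₜ Z × R), (h g).1 = z0 := by
  obtain ⟨D, hD, hs, h0, hz, hf⟩ := exists_conflicts Z z0
  refine ⟨GSet D, inferInstance, isCompact_iff_compactSpace.1 (isClosed_GSet hD).isCompact,
    inferInstance, inferInstance, ⟨⟨fun _ => z0, fun _ _ _ => hz _ _, fun _ _ _ _ h => hz _ _ h.1⟩⟩,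
    fun g => ?_⟩
  obtain ⟨v, hv⟩ := hf (fun p => g.1 (Var.o p)) fun p q =>
    g.2.2 (Var.o p) (Var.o q) (Var.cnt_o _ _) (Var.cnt_o _ _)
  obtain ⟨h, hh⟩ := exists_factor hD hs h0 hz v
  exact ⟨_, inferInstance, h, (hh g).trans hv⟩

end Pool.Agent.Work.MP_eb7862_gt
end

-- merged part: Pool.Agent.Work.MP_eb7862_gt.Swindle
section
/-!
Absorption and the infinite swindle: every zero-dimensional compactum is a factor of a
homogeneous compactum.
-/

universe u

namespace Pool.Agent.Work.MP_eb7862_gt

open Topology Set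

/-- `(H, p)` absorbs `(Z, a)` -/
def Absorbs {H Z : Type u} [TopologicalSpace H] [TopologicalSpace Z] (p : H) (a : Z) : Prop :=
  ∃ h : H ≃ₜ Z × H, h p = (a, p)

theorem Absorbs.of_homeo {H H' Z : Type u} [TopologicalSpace H] [TopologicalSpace H']
    [TopologicalSpace Z] {p : H} {a : Z} (e : H ≃ₜ H') (h : Absorbs (e p) a) : Absorbs p a := by
  obtain ⟨h, hh⟩ := h
  refine ⟨e.trans (h.trans ((Homeomorph.refl Z).prodCongr e.symm)), ?_⟩
  simp [hh]

theorem Absorbs.prod {A B Z : Type u} [TopologicalSpace A] [TopologicalSpace B]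
    [TopologicalSpace Z] {x : A} {a : Z} (h : Absorbs x a) (y : B) : Absorbs (x, y) a := by
  obtain ⟨h, hh⟩ := h
  refine ⟨(h.prodCongr (Homeomorph.refl B)).trans (Homeomorph.prodAssoc Z A B), ?_⟩
  simp [hh, Homeomorph.prodAssoc]

theorem absorbs_const {Z : Type u} [TopologicalSpace Z] (a : Z) :
    Absorbs (fun _ : ℕ => a) a := by
  refine ⟨{ toFun := fun f => (f 0, fun n => f (n + 1))
            invFun := fun t n => Nat.casesOn n t.1 t.2
            left_inv := fun f => funext fun n => by cases n <;> rfl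
            right_inv := fun t => rfl
            continuous_toFun := by fun_prop
            continuous_invFun := continuous_pi fun n => ?_ }, rfl⟩
  cases n with
  | zero => exact continuous_fst
  | succ n => exact (continuous_apply n).comp continuous_snd

theorem absorbs_pow {G Z : Type u} [TopologicalSpace G] [TopologicalSpace Z] {a : Z}
    (hG : ∀ g : G, ∃ (R : Type u) (_ : TopologicalSpace R) (h : G ≃ₜ Z × R), (h g).1 = a)
    (g : ℕ → G) : Absorbs g a := by
  choose R tR h hh using fun n => hG (g n)
  let e : (ℕ → G) ≃ₜ (ℕ → Z) × (∀ n, R n) :=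
    { toFun := fun f => (fun n => (h n (f n)).1, fun n => (h n (f n)).2)
      invFun := fun t n => (h n).symm (t.1 n, t.2 n)
      left_inv := fun f => funext fun n => by simp
      right_inv := fun t => by simp
      continuous_toFun := by fun_prop
      continuous_invFun := by fun_prop }
  refine Absorbs.of_homeo e ?_
  have : e g = (fun _ => a, fun n => (h n (g n)).2) := Prod.ext (funext hh) rfl
  rw [this]
  exact (absorbs_const a).prod _

theorem absorbs_pi {Y : ℕ → Type u} [∀ n, TopologicalSpace (Y n)]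
    (hab : ∀ n (p : Y (n + 1)) (a : Y n), Absorbs p a) (p q : ∀ n, Y n) : Absorbs p q := by
  choose h hh using fun n => hab n (p (n + 1)) (q n)
  refine ⟨{ toFun := fun y => (fun n => (h n (y (n + 1))).1,
              fun n => Nat.casesOn n (y 0) fun n => (h n (y (n + 1))).2)
            invFun := fun t n => Nat.casesOn n (t.2 0) fun n => (h n).symm (t.1 n, t.2 (n + 1))
            left_inv := fun y => funext fun n => ?_
            right_inv := fun t => ?_
            continuous_toFun := ?_
            continuous_invFun := continuous_pi fun n => ?_ }, ?_⟩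
  · cases n with
    | zero => rfl
    | succ n => exact (h n).symm_apply_apply _
  · refine Prod.ext (funext fun n => ?_) (funext fun n => ?_)
    · exact congrArg Prod.fst ((h n).apply_symm_apply _)
    · cases n with
      | zero => rfl
      | succ n => exact congrArg Prod.snd ((h n).apply_symm_apply _)
  · refine Continuous.prodMk (continuous_pi fun n => ?_) (continuous_pi fun n => ?_)
    · exact continuous_fst.comp ((h n).continuous.comp (continuous_apply (n + 1)))
    · cases n with
      | zero => exact continuous_apply 0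
      | succ n => exact continuous_snd.comp ((h n).continuous.comp (continuous_apply (n + 1)))
  · cases n with
    | zero => exact (continuous_apply 0).comp continuous_snd
    | succ n =>
      exact (h n).symm.continuous.comp (((continuous_apply n).comp continuous_fst).prodMk
        ((continuous_apply (n + 1)).comp continuous_snd))
  · refine Prod.ext (funext fun n => ?_) (funext fun n => ?_)
    · exact congrArg Prod.fst (hh n)
    · cases n with
      | zero => rfl
      | succ n => exact congrArg Prod.snd (hh n)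

/-- bundled zero-dimensional compacta -/
structure ZC : Type (u + 1) where
  X : Type u
  [t : TopologicalSpace X]
  [c : CompactSpace X]
  [h : T2Space X]
  [d : TotallyDisconnectedSpace X]

attribute [instance] ZC.t ZC.c ZC.h ZC.d

theorem exists_absorber (Z : ZC.{u}) :
    ∃ H : ZC.{u}, Nonempty H.X ∧ ∀ (p : H.X) (a : Z.X), Absorbs p a := by
  classical
  choose G tG cG hG dG nG hf using fun z0 : Z.X => exists_gadget Z.X z0
  refine ⟨{ X := ∀ z0 : Z.X, ℕ → G z0 }, inferInstance, fun p a => ?_⟩
  refine Absorbs.of_homeo (Homeomorph.piSplitAt a fun z0 : Z.X => ℕ → G z0) ?_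
  exact (absorbs_pow (hf a) (p a)).prod _

theorem homogeneous_pi (Y : ℕ → ZC.{u})
    (hab : ∀ n (p : (Y (n + 1)).X) (a : (Y n).X), Absorbs p a) (y y' : ∀ n, (Y n).X) :
    ∃ h : (∀ n, (Y n).X) ≃ₜ (∀ n, (Y n).X), h y = y' := by
  obtain ⟨h1, e1⟩ := absorbs_pi hab y y'
  obtain ⟨h2, e2⟩ := absorbs_pi hab y' y
  refine ⟨h1.trans ((Homeomorph.prodComm _ _).trans h2.symm), ?_⟩
  simp only [Homeomorph.trans_apply, e1]
  rw [Homeomorph.symm_apply_eq, e2]
  rfl

theorem onto_of_seq (Y : ℕ → ZC.{u})
    (hab : ∀ n (p : (Y (n + 1)).X) (a : (Y n).X), Absorbs p a)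
    (hne : ∀ n, Nonempty (Y (n + 1)).X) :
    ∃ (W : Type u) (_ : TopologicalSpace W), CompactSpace W ∧ T2Space W ∧
      (∀ y y' : W, ∃ h : W ≃ₜ W, h y = y') ∧
      ∃ q : W → (Y 0).X, Continuous q ∧ Function.Surjective q :=
  ⟨∀ n, (Y n).X, inferInstance, inferInstance, inferInstance, homogeneous_pi Y hab,
    fun y => y 0, continuous_apply 0,
    fun z => ⟨fun n => Nat.casesOn n z fun n => (hne n).some, rfl⟩⟩

/-- iterating a construction -/
def tower (nx : ZC.{u} → ZC.{u}) (Z : ZC.{u}) : ℕ → ZC.{u}
  | 0 => Z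
  | n + 1 => nx (tower nx Z n)

theorem exists_homogeneous_factor (Z : ZC.{u}) :
    ∃ (Y : Type u) (_ : TopologicalSpace Y), CompactSpace Y ∧ T2Space Y ∧
      (∀ y y' : Y, ∃ h : Y ≃ₜ Y, h y = y') ∧
      ∃ q : Y → Z.X, Continuous q ∧ Function.Surjective q := by
  choose nx hne hab using exists_absorber.{u}
  exact onto_of_seq (tower nx Z) (fun n => hab (tower nx Z n)) fun n => hne (tower nx Z n)

/-- Every compact Hausdorff space is a continuous image of a homogeneous compact Hausdorff
space. -/
theorem exists_homogeneous_onto (X : Type u) [TopologicalSpace X] [CompactSpace X] [T2Space X] :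
    ∃ (Y : Type u) (_ : TopologicalSpace Y), CompactSpace Y ∧ T2Space Y ∧
      (∀ y y' : Y, ∃ h : Y ≃ₜ Y, h y = y') ∧
      ∃ q : Y → X, Continuous q ∧ Function.Surjective q := by
  obtain ⟨Y, _, h1, h2, h3, q, hq, hq'⟩ := exists_homogeneous_factor { X := Ultrafilter X }
  refine ⟨Y, inferInstance, h1, h2, h3, Ultrafilter.extend id ∘ q,
    (continuous_ultrafilter_extend id).comp hq, Function.Surjective.comp (fun x => ?_) hq'⟩
  exact ⟨pure x, congrFun (ultrafilter_extend_extends (id : X → X)) x⟩

end Pool.Agent.Work.MP_eb7862_gt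
end
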