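import Pool.Agent.Work.MP_eb7862_gt.Machine

/-!
Zigzag: two towers of universal gadgets have pointed-homeomorphic limits.
-/

universe u

namespace Pool.Agent.Work.MP_eb7862_gt

open Topology Set

/-- threads of an inverse sequence -/
def Thr {E : ℕ → Type u} (p : ∀ n, E (n + 1) → E n) : Set (∀ n, E n) :=
  {e | ∀ n, p n (e (n + 1)) = e n}

theorem exists_thr {E : ℕ → Type u} (p : ∀ n, E (n + 1) → E n)
    (hp : ∀ n, Function.Surjective (p n)) (e0 : E 0) : ∃ e ∈ Thr p, e 0 = e0 := by
  refine ⟨fun n => Nat.rec e0 (fun n e => (hp n e).choose) n, fun n => ?_, rfl⟩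
  exact (hp n _).choose_spec

theorem isClosed_thr {E : ℕ → Type u} [∀ n, TopologicalSpace (E n)] [∀ n, T2Space (E n)]
    (p : ∀ n, E (n + 1) → E n) (hp : ∀ n, Continuous (p n)) : IsClosed (Thr p) := by
  simp only [Thr, ofPred_forall]
  exact isClosed_iInter fun n =>
    isClosed_eq ((hp n).comp (continuous_apply (n + 1))) (continuous_apply n)

theorem zigzag {E O : ℕ → Type u} [∀ n, TopologicalSpace (E n)] [∀ n, TopologicalSpace (O n)]
    (pE : ∀ n, E (n + 1) → E n) (pO : ∀ n, O (n + 1) → O n)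
    (A : ∀ n, (O n → E n) → Prop) (B : ∀ n, (E (n + 1) → O n) → Prop)
    (cA : ∀ n a, A n a → Continuous a) (cB : ∀ n b, B n b → Continuous b)
    (hB : ∀ n a, A n a → ∀ o e', a o = pE n e' →
      ∃ b, B n b ∧ (∀ g, a (b g) = pE n g) ∧ b e' = o)
    (hA : ∀ n b, B n b → ∀ e' o', b e' = pO n o' →
      ∃ a', A (n + 1) a' ∧ (∀ g, b (a' g) = pO n g) ∧ a' o' = e')
    (e : Thr pE) (o : Thr pO) (a0 : O 0 → E 0) (h0 : A 0 a0) (h0' : a0 (o.1 0) = e.1 0) :
    ∃ h : Thr pO ≃ₜ Thr pE, h o = e := by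
  have step : ∀ n (a : {a : O n → E n // A n a ∧ a (o.1 n) = e.1 n}),
      ∃ (b : E (n + 1) → O n)
        (a' : {a : O (n + 1) → E (n + 1) // A (n + 1) a ∧ a (o.1 (n + 1)) = e.1 (n + 1)}),
        B n b ∧ (∀ g, a.1 (b g) = pE n g) ∧ ∀ g, b (a'.1 g) = pO n g := by
    intro n a
    obtain ⟨b, hb, hb1, hb2⟩ := hB n a.1 a.2.1 (o.1 n) (e.1 (n + 1)) (by rw [a.2.2, e.2 n])
    obtain ⟨a', ha, ha1, ha2⟩ := hA n b hb (e.1 (n + 1)) (o.1 (n + 1)) (by rw [hb2, o.2 n])
    exact ⟨b, ⟨a', ha, ha2⟩, hb, hb1, ha1⟩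
  choose fb fa hfb hf1 hf2 using step
  let a : ∀ n, {a : O n → E n // A n a ∧ a (o.1 n) = e.1 n} := fun n =>
    Nat.rec ⟨a0, h0, h0'⟩ (fun n a => fa n a) n
  let b : ∀ n, E (n + 1) → O n := fun n => fb n (a n)
  have h1 : ∀ n g, (a n).1 (b n g) = pE n g := fun n => hf1 n (a n)
  have h2 : ∀ n g, b n ((a (n + 1)).1 g) = pO n g := fun n => hf2 n (a n)
  have hac : ∀ n, Continuous (a n).1 := fun n => cA n _ (a n).2.1
  have hbc : ∀ n, Continuous (b n) := fun n => cB n _ (hfb n (a n))
  refine ⟨{ toFun := fun z => ⟨fun n => (a n).1 (z.1 n), fun n => ?_⟩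
            invFun := fun z => ⟨fun n => b n (z.1 (n + 1)), fun n => ?_⟩
            left_inv := fun z => ?_
            right_inv := fun z => ?_
            continuous_toFun := ?_
            continuous_invFun := ?_ }, ?_⟩
  · show pE n ((a (n + 1)).1 (z.1 (n + 1))) = (a n).1 (z.1 n)
    rw [← h1, h2, z.2 n]
  · show pO n (b (n + 1) (z.1 (n + 1 + 1))) = b n (z.1 (n + 1))
    rw [← h2, h1 (n + 1), z.2 (n + 1)]
  · refine Subtype.ext (funext fun n => ?_)
    show b n ((a (n + 1)).1 (z.1 (n + 1))) = z.1 n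
    rw [h2, z.2 n]
  · refine Subtype.ext (funext fun n => ?_)
    show (a n).1 (b n (z.1 (n + 1))) = z.1 n
    rw [h1, z.2 n]
  · refine Continuous.subtype_mk (continuous_pi fun n => ?_) _
    exact (hac n).comp ((continuous_apply n).comp continuous_subtype_val)
  · refine Continuous.subtype_mk (continuous_pi fun n => ?_) _
    exact (hbc n).comp ((continuous_apply (n + 1)).comp continuous_subtype_val)
  · exact Subtype.ext (funext fun n => (a n).2.2)

/-- one stage of the double tower -/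
structure Stage : Type (u + 1) where
  E : Type u
  O : Type u
  I : Type u
  [tE : TopologicalSpace E]
  [tO : TopologicalSpace O]
  [cE : CompactSpace E]
  [cO : CompactSpace O]
  [hE : T2Space E]
  [hO : T2Space O]

attribute [instance] Stage.tE Stage.tO Stage.cE Stage.cO Stage.hE Stage.hO

variable {F : Type u} [TopologicalSpace F] [CompactSpace F] [T2Space F] (C : StepClass F)

/-- the next stage -/
def Stage.next (s : Stage.{u}) : Stage.{u} where
  E := Gad C s.E s.I
  O := Gad C s.O (Lam C s.E s.I)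
  I := Lam C s.O (Lam C s.E s.I)

/-- the double tower -/
def stage (s0 : Stage.{u}) : ℕ → Stage.{u}
  | 0 => s0
  | n + 1 => (stage s0 n).next C

theorem exists_homogeneous {W I : Type u} [TopologicalSpace W] [CompactSpace W] [T2Space W]
    (h : IsGood C I (fun _ : W => (PUnit.unit : PUnit.{u + 1}))) :
    ∃ (Y : Type u) (_ : TopologicalSpace Y), CompactSpace Y ∧ T2Space Y ∧
      (∀ y y' : Y, ∃ h : Y ≃ₜ Y, h y = y') ∧
      ∃ q : Y → W, Continuous q ∧ Function.Surjective q := by
  let s0 : Stage.{u} := { E := PUnit.{u + 1}, O := W, I := I }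
  let pE : ∀ n, (stage C s0 (n + 1)).E → (stage C s0 n).E := fun n =>
    Gad.pr C (stage C s0 n).E (stage C s0 n).I
  let pO : ∀ n, (stage C s0 (n + 1)).O → (stage C s0 n).O := fun n =>
    Gad.pr C (stage C s0 n).O (Lam C (stage C s0 n).E (stage C s0 n).I)
  have sE : ∀ n, Function.Surjective (pE n) := fun n => (Gad.good_pr C _ _).surjective C
  have sO : ∀ n, Function.Surjective (pO n) := fun n => (Gad.good_pr C _ _).surjective C
  have cO : ∀ n, Continuous (pO n) := fun n => Gad.continuous_pr C _ _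
  have key : ∀ (e : Thr (E := fun n => (stage C s0 n).E) pE)
      (o : Thr (E := fun n => (stage C s0 n).O) pO),
      ∃ h : Thr (E := fun n => (stage C s0 n).O) pO ≃ₜ Thr (E := fun n => (stage C s0 n).E) pE,
        h o = e := by
    intro e o
    refine zigzag (E := fun n => (stage C s0 n).E) (O := fun n => (stage C s0 n).O) pE pO
      (fun n a => IsGood C (stage C s0 n).I a)
      (fun n b => IsGood C (Lam C (stage C s0 n).E (stage C s0 n).I) b)
      (fun n a h => h.1) (fun n b h => h.1) ?_ ?_ e o (fun _ => PUnit.unit) h rfl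
    · intro n a ha o e' h
      exact Gad.universal ha o e' h
    · intro n b hb e' o' h
      exact Gad.universal (K := (stage C s0 n).O) (W := (stage C s0 (n + 1)).E) hb e' o' h
  obtain ⟨e, he, -⟩ := exists_thr (E := fun n => (stage C s0 n).E) pE sE PUnit.unit
  refine ⟨Thr (E := fun n => (stage C s0 n).O) pO, inferInstance,
    isCompact_iff_compactSpace.1
      (isClosed_thr (E := fun n => (stage C s0 n).O) pO cO).isCompact,
    inferInstance, ?_, fun z => z.1 0, (continuous_apply 0).comp continuous_subtype_val, ?_⟩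
  · intro y y'
    obtain ⟨h1, e1⟩ := key ⟨e, he⟩ y
    obtain ⟨h2, e2⟩ := key ⟨e, he⟩ y'
    refine ⟨h1.trans h2.symm, ?_⟩
    simp only [Homeomorph.trans_apply, e1]
    rw [← e2, Homeomorph.symm_apply_apply]
  · intro w
    obtain ⟨o, ho, h0⟩ := exists_thr (E := fun n => (stage C s0 n).O) pO sO w
    exact ⟨⟨o, ho⟩, h0⟩

end Pool.Agent.Work.MP_eb7862_gt
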